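import Pool.Agent.Q282.HN.Gen

/-!
# Tate's conjecture for divisors on the products of almost all sections of a variety with all varieties of smaller height, in truncated form

Let `K` be a number field with ring of integers `O`.

**The sections.** Let `W` be a closed subscheme of a projective space over `O` of relative dimension `D + r`, with the number of points
of a variety with the Betti numbers `w_j` (in degree `2 j`) up to an error of the size of cohomology of weight `2 r + D - 1`, and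
`Z` a closed subscheme of `W` of dimension at most `D / 2`, given in `W` by forms `h_j` of degrees `e_j`; let `z(ψ)` be the number of its
components of dimension `D / 2` over the residue field of `ψ`. For `a = 1, ..., r` let the forms `f_{a,j}` span the forms of degree
`d_a ≥ e_j + 2 ν - 1` that vanish on `Z`. For integers `c = (c_{a,j})` of `K` let `V_c` be the complete intersection

  `W ∩ {∑_j c_{1,j} f_{1,j} = 0} ∩ ... ∩ {∑_j c_{r,j} f_{r,j} = 0}`,

a variety of dimension `D` over `K`, smooth if `Δ(c) ≠ 0`, where `Δ` is a polynomial over `O` (a multiple of the discriminant). The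
primes of degree one of `K` over `p` are the homomorphisms `ψ : O → ZMod p`, and `α p ψ u` are the eigenvalues of Frobenius on
`H^D` of the reduction `V_u`, `u = ψ(c)`.

**The other varieties.** A variety `Y` over `K` enters by the eigenvalues `η p ψ j`, `j = 0, 1, 2`, of Frobenius at `ψ` on its cohomology in
degree `j`: at most `β` numbers of absolute value at most `p ^ (j / 2)`.

The conjecture of Tate for divisors says that the rank of the Neron-Severi group of `V_c^ν × Y` over `K` is the limit of the averages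

  `1 / X ∑_{p ≤ X} log p ∑_ψ trace(Frob_ψ, H^2(V_c^ν × Y)(1))`.

**The theorem.** There is a constant `C` such that for all `k ≥ 1`, `λ ≥ 1`, all `X` and all boxes of families `c` (in the coordinates of
any integral basis of `O`, with any centre) with sides at least `C X ^ (3 k)` and for all finite sets `T` of varieties `Y`, all
members of the box but a proportion of at most `#T X λ ^ (- 2 k)` satisfy, for ALL `Y` in `T` and all `2 ≤ X' ≤ X` at once,

  `| ∑_{p ≤ X'} log p ∑_ψ (trace(Frob_ψ, H^2(V_c^ν × Y)(1)) - ρ(ψ) trace(Frob_ψ, H^0(Y)) - trace(Frob_ψ, H^2(Y)(1))) | ≤ C λ (k X')^{1/2} log X'`,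

where `ρ(ψ)` is `ν + ν (ν - 1) / 2` for curves (`D = 1`: a point of each factor and the diagonals), `ν (z(ψ) + w_{1 + r})` for surfaces
(`D = 2`: the classes of `W` and the components of `Z`, as in the theorem of Noether and Lefschetz) and `ν w_1` for `D ≥ 3`. So to this
precision there are no other divisors on `V_c^ν × Y` than the predicted ones: for curves no homomorphisms between the
Jacobian of `V_c` and the Picard variety of any `Y` in `T`, for surfaces no divisors on `V_c` but the sections and components.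

Proof. The means of the traces modulo each prime of degree one (separation of points by the linear system), the independence of
the rational primes in the box for products of up to `2 k` of them, moments of order `2 k` with Gaussian bounds uniform in `k` by
exponential generating functions; the traces of the varieties in `T` are arbitrary bounded weights.
-/

set_option autoImplicit false

namespace Pool.Agent.Results.MP_97f789_ag.DivisorsOnProducts

open Finset MvPolynomial NumberField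
open scoped LinearAlgebra.Projectivization

/-- The polynomials in `n + 1` variables over the ring of integers of `K`. -/
abbrev Forms (K : Type) [Field K] (n : ℕ) : Type := MvPolynomial (Fin (n + 1)) (𝓞 K)

/-- The forms `f j` span the linear system of the hypersurfaces of degree `d` through the scheme `h = 0`: they have degree
`d`, vanish on this scheme (belong to the radical of the ideal), and every form of degree `d` in the ideal is a combination of them. -/
structure Spans {O : Type} [CommRing O] {n : ℕ} {J ι : Type} [Fintype ι] (h : J → MvPolynomial (Fin (n + 1)) O) (d : ℕ)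
    (f : ι → MvPolynomial (Fin (n + 1)) O) : Prop where
  hom : ∀ j, (f j).IsHomogeneous d
  mem : ∀ j, f j ∈ (Ideal.span (Set.range h)).radical
  gen : ∀ G : MvPolynomial (Fin (n + 1)) O, G.IsHomogeneous d → G ∈ Ideal.span (Set.range h) → ∃ c : ι → O, G = ∑ j, C (c j) * f j

/-- The Betti number in degree `2 a`, for `2 a ≠ D`, of a section of dimension `D` and codimension `r` of a variety with the Betti
numbers `w j` in degree `2 j`. -/
def betti (w : ℕ → ℕ) (D r a : ℕ) : ℕ := if 2 * a < D then w a else if D < 2 * a ∧ a ≤ D then w (a + r) else 0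

section

variable {K : Type} [Field K]

/-- The number of the points over the field with `p` elements of the reduction modulo `ψ` of the scheme with the equations `S`. -/
noncomputable def points {n : ℕ} {p : ℕ} [Fact p.Prime] (ψ : 𝓞 K →+* ZMod p) (S : Set (Forms K n)) : ℕ :=
  Nat.card {P : ℙ (ZMod p) (Fin (n + 1) → ZMod p) // ∀ G ∈ S, eval₂ ψ P.rep G = 0}

/-- The number of the points over the field with `p` elements of the member `V_u` of the family of the complete intersections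
`∑_j u_{a,j} f_{a,j} = 0`, `a = 1, ..., r`, in the scheme with the equations `E`, modulo `ψ`. -/
noncomputable def memberPoints {n r : ℕ} {μ : Fin r → ℕ} (E : Set (Forms K n)) (f : (a : Fin r) → Fin (μ a) → Forms K n) {p : ℕ}
    [Fact p.Prime] (ψ : 𝓞 K →+* ZMod p) (u : (Σ a, Fin (μ a)) → ZMod p) : ℕ :=
  Nat.card {P : ℙ (ZMod p) (Fin (n + 1) → ZMod p) // (∀ G ∈ E, eval₂ ψ P.rep G = 0) ∧ ∀ a, ∑ j, u ⟨a, j⟩ * eval₂ ψ P.rep (f a j) = 0}

/-- The eigenvalues `α p ψ u` for the members `V_u` modulo the primes `ψ` with `Δ(u) ≠ 0`: their number is `b`, they are at most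
`p ^ (D / 2)`, and the trace formula holds. For smooth members these are the properties of the eigenvalues of Frobenius on the
cohomology in degree `D` (Grothendieck, Lefschetz, Deligne). -/
structure IsFrobenius {n r : ℕ} {μ : Fin r → ℕ} (w : ℕ → ℕ) (D b : ℕ) (E : Set (Forms K n)) (f : (a : Fin r) → Fin (μ a) → Forms K n)
    (Δ : MvPolynomial (Σ a, Fin (μ a)) (𝓞 K)) (α : (p : ℕ) → (𝓞 K →+* ZMod p) → ((Σ a, Fin (μ a)) → ZMod p) → Multiset ℂ) : Prop where
  card : ∀ (p : ℕ) [Fact p.Prime] (ψ : 𝓞 K →+* ZMod p) (u : (Σ a, Fin (μ a)) → ZMod p), eval₂ ψ u Δ ≠ 0 → (α p ψ u).card = b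
  norm : ∀ (p : ℕ) [Fact p.Prime] (ψ : 𝓞 K →+* ZMod p) (u : (Σ a, Fin (μ a)) → ZMod p), eval₂ ψ u Δ ≠ 0 →
    ∀ a ∈ α p ψ u, ‖a‖ ≤ Real.sqrt p ^ D
  trace : ∀ (p : ℕ) [Fact p.Prime] (ψ : 𝓞 K →+* ZMod p) (u : (Σ a, Fin (μ a)) → ZMod p), eval₂ ψ u Δ ≠ 0 →
    (memberPoints E f ψ u : ℂ) = ∑ a ∈ range (D + 1), betti w D r a * (p : ℂ) ^ a + (-1) ^ D * (α p ψ u).sum

/-- The eigenvalues `η p ψ j`, `j ≤ 2`, at the primes `ψ` of degree one with `Δ ≠ 0` modulo `ψ` on the cohomology of a variety in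
degree `j`: at most `β` numbers of absolute value at most `p ^ (j / 2)`. -/
def IsVariety {S : Type} (Δ : MvPolynomial S (𝓞 K)) (β : ℕ) (η : (p : ℕ) → (𝓞 K →+* ZMod p) → ℕ → Multiset ℂ) : Prop :=
  ∀ (p : ℕ) [Fact p.Prime] (ψ : 𝓞 K →+* ZMod p), map ψ Δ ≠ 0 → ∀ j ≤ 2, (η p ψ j).card ≤ β ∧ ∀ a ∈ η p ψ j, ‖a‖ ≤ Real.sqrt p ^ j

/-- The eigenvalues on the cohomology of a member in degree `j`, where `q` is the number of the elements of the field. -/
noncomputable def cohomology (w : ℕ → ℕ) (D r q : ℕ) (α : Multiset ℂ) (j : ℕ) : Multiset ℂ :=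
  if j = D then α else if Even j then Multiset.replicate (betti w D r (j / 2)) ((q : ℂ) ^ (j / 2)) else 0

/-- The eigenvalues in degree `j` of a product (Kunneth). -/
noncomputable def product (H H' : ℕ → Multiset ℂ) (j : ℕ) : Multiset ℂ :=
  ∑ x ∈ antidiagonal j, (H x.1 ×ˢ H' x.2).map (fun z => z.1 * z.2)

/-- The eigenvalues on the cohomology of the power with `ν` factors. -/
noncomputable def power (H : ℕ → Multiset ℂ) : ℕ → ℕ → Multiset ℂ
  | 0, j => if j = 0 then {1} else 0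
  | ν + 1, j => product H (power H ν) j

/-- The sum over the primes `ψ` of degree one over `p` that do not divide `Δ(c)` of the traces of Frobenius on `H^2(V_c^ν × Y)(1)`. -/
noncomputable def traceSum {S : Type} (w : ℕ → ℕ) (D r ν : ℕ) (Δ : MvPolynomial S (𝓞 K)) (c : S → 𝓞 K)
    (α : (p : ℕ) → (𝓞 K →+* ZMod p) → (S → ZMod p) → Multiset ℂ) (η : (p : ℕ) → (𝓞 K →+* ZMod p) → ℕ → Multiset ℂ) (p : ℕ) : ℂ :=
  (∑ᶠ ψ : {ψ : 𝓞 K →+* ZMod p // ψ (eval c Δ) ≠ 0},
    (product (power (cohomology w D r p (α p ψ.1 fun i => ψ.1 (c i))) ν) (η p ψ.1) 2).sum) / p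

/-- The rank of the predicted divisors on the power with `ν` factors of a section of dimension `D`: for curves a point of each factor
and the diagonals, for surfaces the `w_{1 + r}` classes of the ambient variety and the `z` components of the base on each factor,
in higher dimension the `w_1` classes of the ambient variety on each factor. -/
def rank (w : ℕ → ℕ) (D r ν z : ℕ) : ℕ :=
  if D = 1 then ν + ν.choose 2 else if D = 2 then ν * (z + w (1 + r)) else ν * w 1

/-- The predicted sum: the sum over the primes `ψ` of degree one over `p` with `Δ ≠ 0` modulo `ψ` of the trace of Frobenius on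
`H^0(Y)`, times the rank, plus the trace of Frobenius on `H^2(Y)(1)`. -/
noncomputable def predicted {S : Type} (w : ℕ → ℕ) (D r ν : ℕ) (Δ : MvPolynomial S (𝓞 K)) (z : (p : ℕ) → (𝓞 K →+* ZMod p) → ℕ)
    (η : (p : ℕ) → (𝓞 K →+* ZMod p) → ℕ → Multiset ℂ) (p : ℕ) : ℂ :=
  ∑ᶠ ψ : {ψ : 𝓞 K →+* ZMod p // map ψ Δ ≠ 0}, (rank w D r ν (z p ψ.1) * (η p ψ.1 0).sum + (η p ψ.1 2).sum / p)

/-- The box of the families of integers with coordinates in the intervals `[m, m + L)`. -/
def box {κ S : Type} (ω : Module.Basis κ ℤ (𝓞 K)) (m : S × κ → ℤ) (L : S × κ → ℕ) : Set (S → 𝓞 K) :=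
  {c | ∀ s k, m (s, k) ≤ ω.repr (c s) k ∧ ω.repr (c s) k < m (s, k) + L (s, k)}

/-- The fibres of the scheme `E = 0` at the primes `ψ` of degree one with `Δ ≠ 0` modulo `ψ` have the number of points of a variety
of dimension `D + r` with the Betti numbers `w j`, up to an error of the size of cohomology of weight `2 r + D - 1`. -/
def AmbientCounts {n : ℕ} {S : Type} (Δ : MvPolynomial S (𝓞 K)) (E : Set (Forms K n)) (w : ℕ → ℕ) (D r : ℕ) : Prop :=
  w 0 = 1 ∧ w (D + r) = 1 ∧ ∃ C₀ : ℝ, ∀ (p : ℕ) [Fact p.Prime] (ψ : 𝓞 K →+* ZMod p), map ψ Δ ≠ 0 →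
    |(points ψ E : ℝ) - ∑ j ∈ range (D + r + 1), w j * (p : ℝ) ^ j| ≤ C₀ * Real.sqrt p ^ (2 * r + D - 1)

/-- The fibre of the scheme `S = 0` at `ψ` has `z p ψ` components of dimension `D / 2` over the field with `p` elements (none if `D` is
odd), and none of larger dimension, in the form of the estimate of Lang and Weil; the numbers `z p ψ` are bounded. -/
def BaseCounts {n : ℕ} {T : Type} (Δ : MvPolynomial T (𝓞 K)) (S : Set (Forms K n)) (z : (p : ℕ) → (𝓞 K →+* ZMod p) → ℕ) (D : ℕ) : Prop :=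
  (Odd D → ∀ p ψ, z p ψ = 0) ∧ ∃ C₁ : ℝ, ∀ (p : ℕ) [Fact p.Prime] (ψ : 𝓞 K →+* ZMod p), map ψ Δ ≠ 0 →
    z p ψ ≤ C₁ ∧ |(points ψ S : ℝ) - z p ψ * Real.sqrt p ^ D| ≤ C₁ * Real.sqrt p ^ D / Real.sqrt p

end

theorem power_eq (H : ℕ → Multiset ℂ) (ν j : ℕ) : power H ν j = Q282GP.kun H ν j := by
  induction ν generalizing j with
  | zero => rfl
  | succ ν ih =>
    unfold power product Q282GP.kun
    refine sum_congr rfl fun x _ => ?_
    rw [ih]

theorem rank_eq (w : ℕ → ℕ) (D r ν z : ℕ) : Q282HN.first w D r ν z = rank w D r ν z := rfl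

section

variable {K : Type} [Field K]

theorem member_points {n r : ℕ} {μ : Fin r → ℕ} (E : Set (Forms K n)) (f : (a : Fin r) → Fin (μ a) → Forms K n) (p : ℕ)
    [Fact p.Prime] (ψ : 𝓞 K →+* ZMod p) (u : (Σ a, Fin (μ a)) → ZMod p) :
    Q282GH.zeros (eval₂Hom ψ u) (Q282GP.fam E f) = memberPoints E f ψ u := by
  unfold Q282GH.zeros memberPoints Q282GP.fam
  refine Nat.card_congr (Equiv.subtypeEquivRight fun P => ?_)
  constructor
  · intro h
    refine ⟨fun G hG => ?_, fun a => ?_⟩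
    · have h2 := h _ (Or.inr ⟨G, hG, rfl⟩)
      rw [Q282NA.eval_C_map] at h2
      exact h2
    · have h2 := h _ (Or.inl ⟨a, rfl⟩)
      rw [Q282HM.eval_gen f ψ u P.rep a] at h2
      exact h2
  · rintro ⟨h, h'⟩ H (⟨a, rfl⟩ | ⟨G, hG, rfl⟩)
    · rw [Q282HM.eval_gen f ψ u P.rep a]
      exact h' a
    · rw [Q282NA.eval_C_map]
      exact h G hG

theorem trace_formula {n r : ℕ} {μ : Fin r → ℕ} {w : ℕ → ℕ} {D b : ℕ} {E : Set (Forms K n)} {f : (a : Fin r) → Fin (μ a) → Forms K n}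
    {Δ : MvPolynomial (Σ a, Fin (μ a)) (𝓞 K)} {α : (p : ℕ) → (𝓞 K →+* ZMod p) → ((Σ a, Fin (μ a)) → ZMod p) → Multiset ℂ}
    (hα : IsFrobenius w D b E f Δ α) (p : ℕ) [Fact p.Prime] (ψ : 𝓞 K →+* ZMod p) (u : (Σ a, Fin (μ a)) → ZMod p) (hu : eval₂ ψ u Δ ≠ 0) :
    (Q282GH.zeros (eval₂Hom ψ u) (Q282GP.fam E f) : ℂ) = ((Q282GP.tt w D r (p : ℝ) : ℝ) : ℂ) + (-1) ^ D * (α p ψ u).sum := by
  rw [member_points, hα.trace p ψ u hu]
  congr 1
  unfold Q282GP.tt
  push_cast
  rfl

variable [NumberField K]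

theorem traceSum_eq {n r : ℕ} {μ : Fin r → ℕ} {w : ℕ → ℕ} {D b : ℕ} (ν : ℕ) {E : Set (Forms K n)} {f : (a : Fin r) → Fin (μ a) → Forms K n}
    {Δ : MvPolynomial (Σ a, Fin (μ a)) (𝓞 K)} {α : (p : ℕ) → (𝓞 K →+* ZMod p) → ((Σ a, Fin (μ a)) → ZMod p) → Multiset ℂ}
    (hα : IsFrobenius w D b E f Δ α) (η : (p : ℕ) → (𝓞 K →+* ZMod p) → ℕ → Multiset ℂ) (c : (Σ a, Fin (μ a)) → 𝓞 K) (p : ℕ) (hp : p.Prime) :
    Q282HM.YY w D r ν 2 E f Δ (Q282HM.yy η) p c = traceSum w D r ν Δ c α η p := by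
  rw [Q282HM.YY_eq w D r ν 2 E f Δ α η c p hp (fun hF ψ u hu => trace_formula hα p ψ u hu)]
  unfold traceSum
  have h5 : ∀ H : ℕ → Multiset ℂ, power H ν = Q282GP.kun H ν := fun H => funext fun j => power_eq H ν j
  rw [Real.sq_sqrt (Nat.cast_nonneg p)]
  simp only [h5]
  rfl

theorem predicted_eq {r : ℕ} {μ : Fin r → ℕ} (w : ℕ → ℕ) (D ν : ℕ) (hD : 1 ≤ D) (hr : 1 ≤ r) (hν : 1 ≤ ν) (h0 : w 0 = 1) (hw : w (D + r) = 1)
    (Δ : MvPolynomial (Σ a, Fin (μ a)) (𝓞 K)) (z : (p : ℕ) → (𝓞 K →+* ZMod p) → ℕ) (hz : Odd D → ∀ p ψ, z p ψ = 0)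
    (η : (p : ℕ) → (𝓞 K →+* ZMod p) → ℕ → Multiset ℂ) (p : ℕ) (hp : p.Prime) :
    Q282HM.MM w D r ν 2 Δ z (Q282HM.yy η) p = predicted w D r ν Δ z η p := by
  rw [Q282HN.MM_two w D r ν hD hr hν h0 hw Δ z hz _ p hp]
  unfold predicted Q282HM.yy
  simp only [rank_eq]
  rw [Real.sq_sqrt (Nat.cast_nonneg p), pow_zero]
  simp

end

/-- **Divisors on the products of almost all sections with all varieties of smaller height, in truncated form.** -/
theorem result (K : Type) [Field K] [NumberField K] (κ : Type) [Fintype κ] (ω : Module.Basis κ ℤ (𝓞 K))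
    (D r ν : ℕ) (hD : 1 ≤ D) (hr : 1 ≤ r) (hν : 1 ≤ ν) (μ d : Fin r → ℕ) (Δ : MvPolynomial (Σ a, Fin (μ a)) (𝓞 K))
    -- the variety `W` and the scheme `Z`
    (n : ℕ) (E : Set (Forms K n)) (w : ℕ → ℕ) (hE : AmbientCounts Δ E w D r)
    (J : Type) (h : J → Forms K n) (e : J → ℕ) (hh : ∀ j, (h j).IsHomogeneous (e j)) (hd : ∀ j a, e j + 2 * ν ≤ d a + 1)
    (z : (p : ℕ) → (𝓞 K →+* ZMod p) → ℕ) (hz : BaseCounts Δ (E ∪ Set.range h) z D)
    (f : (a : Fin r) → Fin (μ a) → Forms K n) (hf : ∀ a, Spans h (d a) (f a))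
    -- the bounds for the numbers of the eigenvalues
    (b β : ℕ) :
    ∃ C : ℝ, ∀ (α : (p : ℕ) → (𝓞 K →+* ZMod p) → ((Σ a, Fin (μ a)) → ZMod p) → Multiset ℂ), IsFrobenius w D b E f Δ α →
      ∀ (k : ℕ) (lam : ℝ) (X : ℕ), 1 ≤ k → 1 ≤ lam →
      ∀ (m : (Σ a, Fin (μ a)) × κ → ℤ) (L : (Σ a, Fin (μ a)) × κ → ℕ), (∀ x, C * (X : ℝ) ^ (3 * k) ≤ L x) →
      ∀ (T : Type) [Fintype T] (η : T → (p : ℕ) → (𝓞 K →+* ZMod p) → ℕ → Multiset ℂ), (∀ t, IsVariety Δ β (η t)) →
      (Set.ncard {c ∈ box ω m L | ¬ ∀ t, ∀ X' : ℕ, 2 ≤ X' → X' ≤ X →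
        ‖∑ p ∈ Nat.primesLE X', (Real.log p : ℂ) * (traceSum w D r ν Δ c α (η t) p - predicted w D r ν Δ z (η t) p)‖ ≤
          C * lam * Real.sqrt (k * X') * Real.log X'} : ℝ) ≤
      Fintype.card T * X / lam ^ (2 * k) * Set.ncard (box ω m L) := by
  classical
  obtain ⟨hw0, hw, C₀, hW⟩ := hE
  obtain ⟨hodd, C₁, hZ⟩ := hz
  by_cases hex : ∃ α : (p : ℕ) → (𝓞 K →+* ZMod p) → ((Σ a, Fin (μ a)) → ZMod p) → Multiset ℂ, IsFrobenius w D b E f Δ α
  swap
  · exact ⟨0, fun α hα => absurd ⟨α, hα⟩ hex⟩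
  obtain ⟨α₀, hα₀⟩ := hex
  obtain ⟨C, hC0, hC⟩ := Q282HN.almost_gen ω D hD r hr (Fintype.card_fin r) w hw C₀ C₁ ν hν 2 hh hd
    (fun a => ⟨(hf a).hom, (hf a).mem, (hf a).gen⟩) E Δ z hodd (fun p _ ψ hψ => hW p ψ hψ)
    (fun p _ ψ hψ => (hZ p ψ hψ).1) (fun p _ ψ hψ => (hZ p ψ hψ).2) b
    (fun p hp ψ u hu => ⟨α₀ p ψ u, hα₀.card p ψ u hu, hα₀.norm p ψ u hu, trace_formula hα₀ p ψ u hu⟩) (β : ℝ) (Nat.cast_nonneg β)
  refine ⟨C, fun α hα k lam X hk hlam m L hL T _ η hη => ?_⟩
  have key := hC k hk lam hlam X m L hL T (fun t => Q282HM.yy (η t)) (fun t p hp ψ hψ j hj =>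
    Q282HM.yy_norm (η t) p hp.out.pos ψ j β (hη t p ψ hψ j hj).1 (hη t p ψ hψ j hj).2)
  have hset : {c ∈ box ω m L | ¬ ∀ t, ∀ X' : ℕ, 2 ≤ X' → X' ≤ X →
        ‖∑ p ∈ Nat.primesLE X', (Real.log p : ℂ) * (traceSum w D r ν Δ c α (η t) p - predicted w D r ν Δ z (η t) p)‖ ≤
          C * lam * Real.sqrt (k * X') * Real.log X'} =
      {c ∈ Q282NA.Box ω m L | ¬ ∀ t, ∀ X' : ℕ, 2 ≤ X' → X' ≤ X →
        ‖∑ p ∈ Nat.primesLE X', (Real.log p : ℂ) * (Q282HM.YY w D r ν 2 E f Δ (Q282HM.yy (η t)) p c -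
          Q282HM.MM w D r ν 2 Δ z (Q282HM.yy (η t)) p)‖ ≤
          C * (lam * (Real.sqrt (k * X') * Real.log X'))} := by
    ext c
    simp only [Set.mem_ofPred_eq]
    refine and_congr_right fun _ => not_congr (forall_congr' fun t => forall_congr' fun X' => forall_congr' fun _ => forall_congr' fun _ => ?_)
    have h1 : ∑ p ∈ Nat.primesLE X', (Real.log p : ℂ) * (traceSum w D r ν Δ c α (η t) p - predicted w D r ν Δ z (η t) p) =
        ∑ p ∈ Nat.primesLE X', (Real.log p : ℂ) * (Q282HM.YY w D r ν 2 E f Δ (Q282HM.yy (η t)) p c -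
          Q282HM.MM w D r ν 2 Δ z (Q282HM.yy (η t)) p) := by
      refine sum_congr rfl fun p hp => ?_
      have hprime := Nat.prime_of_mem_primesLE hp
      rw [traceSum_eq ν hα (η t) c p hprime, predicted_eq w D ν hD hr hν hw0 hw Δ z hodd (η t) p hprime]
    rw [h1, mul_assoc, mul_assoc]
  rw [hset]
  refine key.trans (le_of_eq ?_)
  have h2 : Set.ncard (Q282NA.Box ω m L) = Set.ncard (box ω m L) := rfl
  rw [h2]
  ring

end Pool.Agent.Results.MP_97f789_ag.DivisorsOnProducts
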