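import Pool.Agent.Q45.GM.Dpd

/-!
# The Galois representation of a double plane and the branch curve modulo `2`

Let `k` be a field of characteristic different from `2`, with separable closure `k'`, and let
`P(t, x)` be a polynomial over `k`, monic of odd degree in `x`, such that the plane curve
`C : P(t, x) = 0` is smooth, irreducible over `k'` and separable over the `t`-line. Let `X` be the
double plane `w ^ 2 = P(t, x)` with branch curve `C`, `J` the Jacobian of the hyperelliptic curve
`w ^ 2 = P(t, x)` over `K = k(t)`, `F = k'(t)`, and `M` the `ℤ_2`-module of the classes of the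
continuous cocycles of `Gal(Sep F / F)` with values in the Tate module `T_2 J` which are locally trivial
at all the maximal ideals of `k'[t]`. The group of the automorphisms of the separable closure of `F` over
`K` acts on `M`, through `Gal(k' / k)`.

Let `S` be the ring of the functions on `C` over `k'`, `L` its field of fractions, and `W` the group of
the elements of `Lˣ` whose fractional ideal is a square, modulo the squares; if `C` has a single
place at infinity then `W` is the group of the points of order `2` of the Jacobian of `C`. The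
automorphisms of `L` which fix the polynomials in `t` and `x` over `k` act on `W`.

(1) Let `W` be finite. There is a monotone map from the stable submodules of `M` to the stable subgroups
of `W`, which maps the saturated submodules of rank `r` to subgroups of order `2 ^ r`. So the
dimensions of the constituents of the representation `ℚ_2 ⊗ M` are sums of the dimensions of
constituents of `W`.

(2) Let `W` be irreducible. Then `M` is zero or free of rank `r`, where `2 ^ r` is the order of `W`, and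
the representation on `ℚ_2 ⊗ M` is irreducible: each stable submodule of `M` is zero or of finite index.
If a subset `N` of the group, stable under conjugation, fixes an element different from zero of `M`, it
fixes all the elements. If moreover the only endomorphisms of `W` which commute with the action are `0`
and `1`, the endomorphisms of `M` which commute with the action are the elements of `ℤ_2`.
-/

set_option autoImplicit false
set_option linter.all false

open Polynomial IsDedekindDomain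
open scoped Classical nonZeroDivisors

namespace Pool.Agent.Results.MP_97f789_ag.DoublePlanes

open Pool.Agent.Y160.SL
open Pool.Agent.TH115.GD (rs ak Sep Comp)

/-- The derivative with respect to `t` of the polynomial `P(t, x)` in `k[t][x]`. -/
noncomputable def derivT {k : Type} [Field k] (P : k[X][X]) : k[X][X] :=
  P.sum fun i a => C (derivative a) * X ^ i

/-- The conditions on the curve `P(t, x) = 0` over `k`: `P` is monic of odd degree in `x`, the curve is
smooth and separable over the `t`-line. -/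
structure IsSmoothCurve {k : Type} [Field k] (P : k[X][X]) : Prop where
  two : (2 : k) ≠ 0
  monic : P.Monic
  odd : Odd P.natDegree
  separable : derivative P ≠ 0
  smooth : ∃ a₁ a₂ a₃ : k[X][X], a₁ * P + a₂ * derivative P + a₃ * derivT P = 1

/-- The polynomial `P(t, x)` over `k'`. -/
noncomputable def extendPoly {k : Type} [Field k] (k' : Type) [Field k'] [Algebra k k']
    (P : k[X][X]) : k'[X][X] := P.map (mapRingHom (algebraMap k k'))

/-- The ring of the functions on the curve `P(t, x) = 0` over `k'`. -/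
abbrev CurveRing {k : Type} [Field k] (k' : Type) [Field k'] [Algebra k k'] (P : k[X][X]) : Type :=
  AdjoinRoot (extendPoly k' P)

/-- The polynomial `P(t, x)` over the field `K` which contains `k[t]`. -/
noncomputable def fPoly {k : Type} [Field k] (P : k[X][X]) (K : Type) [Field K] [Algebra k[X] K] :
    K[X] := P.map (algebraMap k[X] K)

section grp

variable {H : Type} [CommGroup H] (Sq Ev : Subgroup H) (E : Set (H →* H))

/-- The subgroup `U` is stable under the endomorphisms in `E`. -/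
def IsStableUnder (U : Subgroup H) : Prop := ∀ e ∈ E, ∀ z ∈ U, e z ∈ U

/-- The quotient `Ev / Sq` is irreducible. -/
def IsIrreducibleQuotient : Prop :=
  ∀ U : Subgroup H, Sq ≤ U → U ≤ Ev → IsStableUnder E U → U = Sq ∨ U = Ev

/-- The endomorphisms of the quotient `Ev / Sq` which commute with `E` are `0` and `1`. -/
def HasScalarQuotient : Prop :=
  ∀ A : H → H, (∀ z ∈ Ev, A z ∈ Ev) → (∀ z ∈ Sq, A z ∈ Sq) →
    (∀ z ∈ Ev, ∀ w ∈ Ev, A (z * w) / (A z * A w) ∈ Sq) →
    (∀ e ∈ E, ∀ z ∈ Ev, e z ∈ Ev → A (e z) / e (A z) ∈ Sq) →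
    (∀ z ∈ Ev, A z ∈ Sq) ∨ ∀ z ∈ Ev, A z / z ∈ Sq

end grp

section curve

/-- The elements of `Lˣ` whose fractional ideal is a square. -/
def evenGroup (S L : Type) [CommRing S] [IsDedekindDomain S] [Field L] [Algebra S L]
    [IsFractionRing S L] : Subgroup Lˣ where
  carrier := {z | ∃ I : FractionalIdeal S⁰ L, FractionalIdeal.spanSingleton S⁰ (z : L) = I ^ 2}
  mul_mem' := (Pool.Agent.Q45.GM.evS S L).mul_mem'
  one_mem' := (Pool.Agent.Q45.GM.evS S L).one_mem'
  inv_mem' := (Pool.Agent.Q45.GM.evS S L).inv_mem'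

/-- The squares. -/
def squares (L : Type) [Field L] : Subgroup Lˣ := (powMonoidHom 2 : Lˣ →* Lˣ).range

variable {k : Type} [Field k] (k' : Type) [Field k'] [Algebra k k'] (P : k[X][X])
  (L : Type) [Field L] [Algebra (CurveRing k' P) L]

/-- The automorphism `e` of `L` fixes the polynomials in `t` and `x` over `k`. -/
def FixesPolys (e : L ≃+* L) : Prop :=
  ∀ p : k[X][X], e (algebraMap (CurveRing k' P) L (AdjoinRoot.mk _ (extendPoly k' p))) =
    algebraMap (CurveRing k' P) L (AdjoinRoot.mk _ (extendPoly k' p))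

/-- The automorphisms of `Lˣ` induced by the automorphisms of `L` which fix the polynomials in `t` and
`x` over `k`. -/
def autUnits : Set (Lˣ →* Lˣ) :=
  {φ | ∃ e : L ≃+* L, FixesPolys k' P L e ∧ φ = Units.map (e : L →* L)}

end curve

section gen

variable {K F Ω : Type} [Field K] [Field F] [Field Ω] [Algebra K F] [Algebra F Ω] [Algebra K Ω]
  [IsScalarTower K F Ω] (f : K[X])

/-- The sequences of cochains of `Gal(Ω / F)` with values in `J(Ω)`. -/
abbrev Cochain (F Ω : Type) [Field F] [Field Ω] [Algebra K Ω] [Algebra F Ω] (f : K[X]) : Type :=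
  ℕ → (Ω ≃ₐ[F] Ω) → Jac 2 f Ω

/-- `c` is the coboundary of an element `R` of the Tate module `T_2 J`. -/
def IsTateCoboundary (c : Cochain F Ω f) : Prop :=
  ∃ R : ℕ → Jac 2 f Ω, IsTM 2 2 f R ∧ ∀ n, IsCobOf 2 f (c n) (R n)

/-- The map `κ` identifies with `M` the group of the classes of the cocycles with the property `P`:
it is additive and surjective on these cocycles, and `κ c = 0` if and only if `c` is the coboundary of
an element of the Tate module. -/
structure IsClassMap (P : Cochain F Ω f → Prop) (M : Type) [AddCommGroup M]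
    (κ : Cochain F Ω f → M) : Prop where
  surj : ∀ m, ∃ c, P c ∧ κ c = m
  add : ∀ c d, P c → P d → κ (c + d) = κ c + κ d
  zero : ∀ c, P c → (κ c = 0 ↔ IsTateCoboundary f c)

/-- `d` is the transform of the cochain `c` by the automorphism `T` of `Ω` over `K`:
`d (σ) = T (c (σ'))`, where `σ' = T⁻¹ σ T`. -/
def IsTransform (T : Ω ≃ₐ[K] Ω) (c d : Cochain F Ω f) : Prop :=
  ∀ n (σ σ' : Ω ≃ₐ[F] Ω), (∀ x, T (σ' x) = σ (T x)) → d n σ = jm 2 f (ak T) (c n σ')

/-- The endomorphism `φ` of `M` is induced by the automorphism `T` of `Ω` over `K`. -/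
def IsInduced (P : Cochain F Ω f → Prop) {M : Type} (κ : Cochain F Ω f → M) (T : Ω ≃ₐ[K] Ω)
    (φ : M → M) : Prop :=
  ∀ c d, P c → IsTransform f T c d → P d ∧ κ d = φ (κ c)

end gen

section rep

variable {G M : Type} [Group G] [AddCommGroup M] [Module ℤ_[2] M] (A : G → (M →ₗ[ℤ_[2]] M) → Prop)

/-- `A T φ` means that `T` in the group `G` acts on `M` as `φ`. Each `T` acts, and each stable submodule
of `M` is zero or contains `2 ^ r M` for some `r`. -/
def IsIrreducibleRep : Prop :=
  (∀ T, ∃ φ, A T φ) ∧ ∀ U : Submodule ℤ_[2] M, (∀ T φ, A T φ → ∀ u ∈ U, φ u ∈ U) →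
    U = ⊥ ∨ ∃ r : ℕ, ∀ m : M, (2 : ℤ_[2]) ^ r • m ∈ U

/-- If a subset `N` of `G`, stable under conjugation, fixes an element different from zero of `M`, then
it fixes all the elements of `M`. -/
def NoPartialInvariants : Prop :=
  ∀ N : Set G, (∀ S ∈ N, ∀ T, T⁻¹ * S * T ∈ N) →
    (∃ m : M, m ≠ 0 ∧ ∀ S ∈ N, ∀ φ, A S φ → φ m = m) → ∀ m, ∀ S ∈ N, ∀ φ, A S φ → φ m = m

/-- `Ψ` is a monotone map from the submodules of `M` to the subgroups of a group. It maps the stable
submodules to the subgroups between `Sq` and `Ev` with the property `St`, and `[Ψ U : Sq] = 2 ^ rank U` if `U` is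
stable and saturated. -/
def IsReductionMap {H : Type} [Group H] (Sq Ev : Subgroup H) (St : Subgroup H → Prop)
    (Ψ : Submodule ℤ_[2] M → Subgroup H) : Prop :=
  (∀ U U', U ≤ U' → Ψ U ≤ Ψ U') ∧
  ∀ U : Submodule ℤ_[2] M, (∀ T φ, A T φ → ∀ u ∈ U, φ u ∈ U) →
    Sq ≤ Ψ U ∧ Ψ U ≤ Ev ∧ St (Ψ U) ∧
      ((∀ m : M, (2 : ℤ_[2]) • m ∈ U → m ∈ U) → 2 ^ Module.finrank ℤ_[2] U = Sq.relIndex (Ψ U))

/-- The endomorphisms of `M` which commute with the action are the elements of `ℤ_2`. -/
def OnlyScalars : Prop :=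
  ∀ ψ : M →ₗ[ℤ_[2]] M, (∀ T φ, A T φ → ∀ m, ψ (φ m) = φ (ψ m)) → ∃ c : ℤ_[2], ∀ m, ψ m = c • m

end rep

section sel

variable {K F : Type} [Field K] [Field F] [Algebra K F] (B : Type) [CommRing B] [IsDedekindDomain B]
  [Algebra B F] [IsFractionRing B F] (f : K[X])

/-- The restriction of the cochain `c` to the completion of `F` at every maximal ideal of the Dedekind
domain `B` with field of fractions `F` is a coboundary. -/
def IsSelmer (c : (Sep F ≃ₐ[F] Sep F) → Jac 2 f (Sep F)) : Prop :=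
  ∀ v : HeightOneSpectrum B, LocTriv 2 f (Comp B F v) (Sep (Comp B F v)) c

/-- `c` is a continuous cocycle of `Gal(Sep F / F)` with values in the Tate module `T_2 J` which is
locally trivial at all the maximal ideals of the Dedekind domain `B` with field of fractions `F`; its
component with values in `J[2 ^ n]` is `c n`. -/
def IsSelmerCocycle (c : Cochain F (Sep F) f) : Prop :=
  IsTC 2 2 f c ∧ ∀ n, IsSelmer B f (c n)

/-- The automorphism `T` of `Sep F` over `K` acts on the module of the classes as `φ`. -/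
def ActsAs {M : Type} [AddCommGroup M] [Module ℤ_[2] M] (κ : Cochain F (Sep F) f → M)
    (T : Sep F ≃ₐ[K] Sep F) (φ : M →ₗ[ℤ_[2]] M) : Prop :=
  IsInduced f (IsSelmerCocycle B f) κ T φ

/-- The module `M` of the classes, with the action on it, has the property `Q`. -/
def Concl (Q : ∀ (M : Type) [AddCommGroup M] [Module ℤ_[2] M],
    ((Sep F ≃ₐ[K] Sep F) → (M →ₗ[ℤ_[2]] M) → Prop) → Prop) : Prop :=
  ∃ (M : Type) (_ : AddCommGroup M) (_ : Module ℤ_[2] M) (_ : Module.Finite ℤ_[2] M)
    (_ : Module.Free ℤ_[2] M) (κ : Cochain F (Sep F) f → M),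
    IsClassMap f (IsSelmerCocycle B f) M κ ∧
    (∀ T : Sep F ≃ₐ[K] Sep F, ∃ φ : M →ₗ[ℤ_[2]] M, ActsAs B f κ T φ) ∧ Q M (ActsAs B f κ)

end sel

/-- (1) The general case. -/
def General : Prop :=
  ∀ (k k' K F L : Type) [Field k] [Field k'] [Algebra k k'] [IsSepClosure k k'] [Field K]
    [Algebra k[X] K] [IsFractionRing k[X] K] [Field F] [Algebra k'[X] F] [IsFractionRing k'[X] F]
    [Algebra K F] (P : k[X][X]) [IsDedekindDomain (CurveRing k' P)] [Field L]
    [Algebra (CurveRing k' P) L] [IsFractionRing (CurveRing k' P) L],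
    (∀ p : k[X], algebraMap K F (algebraMap k[X] K p) =
      algebraMap k'[X] F (p.map (algebraMap k k'))) →
    IsSmoothCurve P → (squares L).relIndex (evenGroup (CurveRing k' P) L) ≠ 0 →
      Concl (F := F) k'[X] (fPoly P K) fun M _ _ A =>
        ∃ Ψ : Submodule ℤ_[2] M → Subgroup Lˣ,
          IsReductionMap A (squares L) (evenGroup (CurveRing k' P) L)
            (IsStableUnder (autUnits k' P L)) Ψ

/-- (2) The irreducible case. -/
def IrreducibleCase : Prop :=
  ∀ (k k' K F L : Type) [Field k] [Field k'] [Algebra k k'] [IsSepClosure k k'] [Field K]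
    [Algebra k[X] K] [IsFractionRing k[X] K] [Field F] [Algebra k'[X] F] [IsFractionRing k'[X] F]
    [Algebra K F] (P : k[X][X]) [IsDedekindDomain (CurveRing k' P)] [Field L]
    [Algebra (CurveRing k' P) L] [IsFractionRing (CurveRing k' P) L],
    (∀ p : k[X], algebraMap K F (algebraMap k[X] K p) =
      algebraMap k'[X] F (p.map (algebraMap k k'))) →
    IsSmoothCurve P → IsIrreducibleQuotient (squares L) (evenGroup (CurveRing k' P) L)
        (autUnits k' P L) →
      Concl (F := F) k'[X] (fPoly P K) fun M _ _ A =>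
        (Module.finrank ℤ_[2] M = 0 ∨ 2 ^ Module.finrank ℤ_[2] M =
          (squares L).relIndex (evenGroup (CurveRing k' P) L)) ∧
        IsIrreducibleRep A ∧ NoPartialInvariants A ∧
        (HasScalarQuotient (squares L) (evenGroup (CurveRing k' P) L) (autUnits k' P L) →
          OnlyScalars A)

open Pool.Agent.Q45.GM (SelT clsOf clsOf_surj clsOf_add clsOf_zero rho rho_cls rho_mul isGeom_rat
  IsBr with_dp evS sqS Fixes FixP core_dp core_chain core_scal)

section conv

variable {K F : Type} [Field K] [Field F] [Algebra K F] {B : Type} [CommRing B] [IsDedekindDomain B]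
  [Algebra B F] [IsFractionRing B F] {f : K[X]}

theorem toTC {c : Cochain F (Sep F) f} (h : IsTC 2 2 f c) : Pool.Agent.Y160.SQ.IsTC 2 2 f c :=
  ⟨fun n => ⟨(h.coc n).lc, (h.coc n).mul⟩, h.zero, h.step⟩

theorem ofTC {c : Cochain F (Sep F) f} (h : Pool.Agent.Y160.SQ.IsTC 2 2 f c) : IsTC 2 2 f c :=
  ⟨fun n => ⟨(h.coc n).lc, (h.coc n).mul⟩, h.zero, h.step⟩

/-- The classes of the cocycles. -/
theorem classMap : IsClassMap f (IsSelmerCocycle B f) (SelT (F := F) 2 B f 2) (clsOf B f) where
  surj m := by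
    obtain ⟨c, ⟨h1, h2⟩, h3⟩ := clsOf_surj B f m
    exact ⟨c, ⟨ofTC h1, h2⟩, h3⟩
  add c d hc hd := clsOf_add B f (toTC hc.1) hc.2 (toTC hd.1) hd.2
  zero c hc := by
    refine (clsOf_zero B f (toTC hc.1) hc.2).trans ⟨?_, ?_⟩
    · rintro ⟨R, hR, h⟩
      exact ⟨R, ⟨hR.zero, hR.step⟩, h⟩
    · rintro ⟨R, hR, h⟩
      exact ⟨R, ⟨hR.zero, hR.step⟩, h⟩

end conv


section acts

variable {k k' K F : Type} [Field k] [Field k'] [Algebra k k'] [IsSepClosed k']
  [Algebra.IsSeparable k k'] [Field K] [Algebra k[X] K] [Field F] [Algebra k'[X] F] [Algebra K F]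

theorem acts_iff [IsFractionRing k'[X] F] (hF' : Pool.Agent.Q45.TW.IsGeom k k' K F) (f : K[X])
    (T : Sep F ≃ₐ[K] Sep F)
    (φ : SelT (F := F) 2 k'[X] f 2 →ₗ[ℤ_[2]] SelT (F := F) 2 k'[X] f 2) :
    ActsAs k'[X] f (clsOf k'[X] f) T φ ↔ φ = rho k'[X] hF' f T := by
  constructor
  · intro h
    refine LinearMap.ext fun m => ?_
    obtain ⟨c, ⟨hc, hcs⟩, rfl⟩ := clsOf_surj k'[X] f m
    have hcj := Pool.Agent.Q45.GM.lf_T k'[X] hF' f T
    have hd : IsTransform f T c (fun n σ => jm 2 f (ak T)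
        (c n ((Pool.Agent.Q45.GM.lf k'[X] hF' f T).conj σ))) := by
      intro n σ σ' hσ
      have h5 : (Pool.Agent.Q45.GM.lf k'[X] hF' f T).conj σ = σ' := by
        refine AlgEquiv.ext fun x => T.injective ?_
        rw [hσ]
        have h6 := (Pool.Agent.Q45.GM.lf k'[X] hF' f T).T_conj σ x
        rwa [hcj] at h6
      have h8 : ∀ ρ : Sep F ≃ₐ[F] Sep F, ρ = σ' →
          jm 2 f (ak T) (c n ρ) = jm 2 f (ak T) (c n σ') := by
        rintro ρ rfl
        rfl
      exact h8 _ h5
    have h7 := (h c _ ⟨ofTC hc, hcs⟩ hd).2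
    rw [← h7]
    exact (rho_cls k'[X] hF' f T hc hcs hd).2
  · rintro rfl c d hc hd
    obtain ⟨⟨h4, h5⟩, h6⟩ := rho_cls k'[X] hF' f T (toTC hc.1) hc.2 hd
    exact ⟨⟨ofTC h4, h5⟩, h6⟩

end acts

theorem general : General := by
  intro k k' K F L _ _ _ hk' _ _ _ _ _ _ _ P _ _ _ _ hcomp hP hfin
  haveI : IsSepClosed k' := hk'.sep_closed
  haveI : Algebra.IsSeparable k k' := hk'.separable
  have hbr : IsBr P := ⟨hP.two, hP.monic, hP.odd, hP.separable, hP.smooth⟩
  have hF' := isGeom_rat (K := K) (F := F) hcomp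
  refine with_dp (k' := k') (K := K) (F := F) hbr (Q := extendPoly k' P) rfl hcomp L ?_
  intro _ _ _ _ _ _ _ _ _ _ hgd a θ hfld hff hm hreg hfix
  obtain ⟨h1, h2, Ψ, h3, h4⟩ := core_chain (S := CurveRing k' P) k'[X] hgd hF' hff hm hreg hfld hfin
  haveI i1 : Module.Finite ℤ_[2] (SelT (F := F) 2 k'[X] (fPoly P K) 2) := h1
  haveI i2 : Module.Free ℤ_[2] (SelT (F := F) 2 k'[X] (fPoly P K) 2) := h2
  have hind := acts_iff (K := K) (F := F) hF' (fPoly P K)
  refine ⟨SelT (F := F) 2 k'[X] (fPoly P K) 2, inferInstance, inferInstance, i1, i2,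
    clsOf k'[X] (fPoly P K), classMap, fun T => ⟨rho k'[X] hF' (fPoly P K) T, (hind T _).2 rfl⟩,
    Ψ, h3, ?_⟩
  intro U hU
  obtain ⟨h5, h6, h7, h8⟩ := h4 U fun T m hm => hU T _ ((hind T _).2 rfl) m hm
  exact ⟨h5, h6, by rintro _ ⟨e, he, rfl⟩; exact h7 e ((hfix e).1 he), h8⟩

theorem irreducibleCase : IrreducibleCase := by
  intro k k' K F L _ _ _ hk' _ _ _ _ _ _ _ P _ _ _ _ hcomp hP hirr
  haveI : IsSepClosed k' := hk'.sep_closed
  haveI : Algebra.IsSeparable k k' := hk'.separable
  have hbr : IsBr P := ⟨hP.two, hP.monic, hP.odd, hP.separable, hP.smooth⟩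
  have hF' := isGeom_rat (K := K) (F := F) hcomp
  refine with_dp (k' := k') (K := K) (F := F) hbr (Q := extendPoly k' P) rfl hcomp L ?_
  intro _ _ _ _ _ _ _ _ _ _ hgd a θ hfld hff hm hreg hfix
  have hirr0 : ∀ U : Subgroup Lˣ, sqS L ≤ U → U ≤ evS (CurveRing k' P) L →
      (∀ e : L ≃+* L, (∀ x : K, e (algebraMap K L x) = algebraMap K L x) → e θ = θ →
        ∀ z ∈ U, Units.map (e : L →* L) z ∈ U) → U = sqS L ∨ U = evS (CurveRing k' P) L :=
    fun U hU1 hU2 hU3 => hirr U hU1 hU2 (by
      rintro _ ⟨e, he, rfl⟩ z hz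
      exact hU3 e ((hfix e).1 he).1 ((hfix e).1 he).2 z hz)
  obtain ⟨h1, h2, h3, h4⟩ := core_dp (S := CurveRing k' P) k'[X] hgd hF' hff hm hreg hfld hirr0
  haveI i1 : Module.Finite ℤ_[2] (SelT (F := F) 2 k'[X] (fPoly P K) 2) := h1
  haveI i2 : Module.Free ℤ_[2] (SelT (F := F) 2 k'[X] (fPoly P K) 2) := h2
  have hind := acts_iff (K := K) (F := F) hF' (fPoly P K)
  have hirr' : ∀ U : Submodule ℤ_[2] (SelT (F := F) 2 k'[X] (fPoly P K) 2),
      (∀ T, ∀ m ∈ U, rho k'[X] hF' (fPoly P K) T m ∈ U) →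
        U = ⊥ ∨ ∃ r : ℕ, ∀ m : SelT (F := F) 2 k'[X] (fPoly P K) 2, (2 : ℤ_[2]) ^ r • m ∈ U := h4
  refine ⟨SelT (F := F) 2 k'[X] (fPoly P K) 2, inferInstance, inferInstance, i1, i2,
    clsOf k'[X] (fPoly P K), classMap, fun T => ⟨rho k'[X] hF' (fPoly P K) T, (hind T _).2 rfl⟩,
    h3, ⟨fun T => ⟨rho k'[X] hF' (fPoly P K) T, (hind T _).2 rfl⟩, ?_⟩, ?_, ?_⟩
  · intro U hU
    exact hirr' U fun T m hm => hU T _ ((hind T _).2 rfl) m hm
  · rintro N hN ⟨m₀, hm₀, hfixm⟩ m S hS φ hφ
    have h5 := Pool.Agent.Q45.GM.fixed_all (rho k'[X] hF' (fPoly P K))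
      (rho_mul k'[X] hF' (fPoly P K)) hirr' N hN hm₀
      (fun S hS => hfixm S hS _ ((hind S _).2 rfl)) S hS m
    rw [(hind S φ).1 hφ]
    exact h5
  · intro hsc ψ hψ
    refine core_scal (S := CurveRing k' P) k'[X] hgd hF' hff hm hreg hfld hirr0 ?_ ψ
      fun T m => hψ T _ ((hind T _).2 rfl) m
    intro A hA1 hA2 hA3
    choose w hw1 hw2 using hA1
    have hmk : ∀ x y : Lˣ, (QuotientGroup.mk x : Lˣ ⧸ sqS L) = QuotientGroup.mk y ↔
        x / y ∈ squares L := by
      intro x y
      rw [eq_comm, QuotientGroup.eq, inv_mul_eq_div]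
      rfl
    set A' : Lˣ → Lˣ := fun z => if hz : z ∈ evS (CurveRing k' P) L then w ⟨z, hz⟩ else 1 with hA'
    have hA'1 : ∀ z : evS (CurveRing k' P) L, A' z.1 = w z := fun z => dif_pos z.2
    have hone : ∀ x : Lˣ, (QuotientGroup.mk x : Lˣ ⧸ sqS L) = 1 ↔ x ∈ squares L := fun x =>
      QuotientGroup.eq_one_iff x
    rcases hsc A' (fun z hz => by rw [hA'1 ⟨z, hz⟩]; exact hw1 _)
      (fun z hz => by
        have hz' : z ∈ evS (CurveRing k' P) L := Pool.Agent.Q45.GM.sq_le hz
        rw [hA'1 ⟨z, hz'⟩, ← hone, ← hw2]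
        exact hA2 _ hz)
      (fun z hz u hu => by
        rw [hA'1 ⟨z, hz⟩, hA'1 ⟨u, hu⟩, hA'1 ⟨z * u, mul_mem hz hu⟩, ← hmk]
        have h5 : (QuotientGroup.mk (w ⟨z, hz⟩ * w ⟨u, hu⟩) : Lˣ ⧸ sqS L) =
          QuotientGroup.mk (w ⟨z, hz⟩) * QuotientGroup.mk (w ⟨u, hu⟩) := rfl
        rw [h5, ← hw2, ← hw2, ← hw2, ← map_mul]
        rfl)
      (by
        rintro _ ⟨e, he, rfl⟩ z hz hez
        rw [hA'1 ⟨z, hz⟩, hA'1 ⟨_, hez⟩, ← hmk, ← hw2]
        exact hA3 e ((hfix e).1 he) ⟨z, hz⟩ ⟨_, hez⟩ _ rfl (hw2 _)) with h5 | h5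
    · left
      intro z
      have h6 := h5 z.1 z.2
      rw [hA'1, ← hone, ← hw2] at h6
      exact h6
    · right
      intro z
      have h6 := h5 z.1 z.2
      rw [hA'1, ← hmk, ← hw2] at h6
      exact h6

/-- **The Galois representation of a double plane and the branch curve modulo `2`.** -/
theorem result : General ∧ IrreducibleCase := ⟨general, irreducibleCase⟩

end Pool.Agent.Results.MP_97f789_ag.DoublePlanes
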