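import Pool.Agent.Q45.TD.Dens
import Pool.Agent.Q45.TW.PicI

/-!
# The Tate conjecture at `2` for almost all coverings of the plane in a family

Let `k` be a number field, `n ≥ 5` odd and `r, m ≥ 0`. An integer vector
`(a₁, …, a_n, x₁, …, x_r, c₁, …, c_m)` gives the polynomial `g(x) = x ^ n + a_n x ^ (n - 1) + … + a₁`, the
curve `𝒞` over `k` with the equations `y_i ^ 2 = t + g(x_i)`, `z_j ^ 2 = t + c_j` in the variables
`t, y₁, …, y_r, z₁, …, z_m`, the field `K = k(𝒞)`, and the Jacobian `J` over `K` of the hyperelliptic curve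
`w ^ 2 = g(x) + t` of genus `(n - 1) / 2`. So `K` is the function field of the base of a surface which is a
covering of the plane with coordinates `x, w` with group `(ℤ / 2) ^ (r + m)`, branched over the curves
`w ^ 2 = g(x) - g(x_i)` and `w ^ 2 = g(x) - c_j`.

For `100%` of the integer vectors the Tate conjecture at `2` holds: the Galois-invariant classes of
`V₂ Sel(J / k'K)`, `k'` an algebraic closure of `k`, come from `J(K)`; and the classes of the points with
coordinates `(x_i, y_i)` are a basis of `J(K)` at `2`.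
-/

set_option autoImplicit false
set_option linter.all false

open Polynomial IsDedekindDomain Filter Topology
open scoped Classical

namespace Pool.Agent.Results.MP_97f789_ag.PlaneCoverings

open Pool.Agent.Y160.SL
open Pool.Agent.TH115.GD (incl Sep Comp)
open Pool.Agent.Q45.TW (IsIdealClass)

/-- The elements of `k` as elements of `K`. -/
noncomputable def const (k K : Type) [Field k] [Field K] [Algebra k[X] K] : k →+* K :=
  (algebraMap k[X] K).comp C

/-- The polynomial `f(x) = g(x) + t` over `K`, where `t` is the variable of `k[t]`. -/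
noncomputable def fPoly {k : Type} [Field k] (g : k[X]) (K : Type) [Field K] [Algebra k[X] K] : K[X] :=
  g.map (const k K) + C (algebraMap k[X] K X)

/-- `K` is generated over `k(t)` by the elements `y_i`, `y_i ^ 2 = t + c_i`, and `t` is transcendental
over `k`. -/
structure IsFunctionField {k : Type} [Field k] {ι : Type} (c : ι → k) (K : Type)
    [Field K] [Algebra k[X] K] (y : ι → K) : Prop where
  inj : Function.Injective (algebraMap k[X] K)
  sq : ∀ i, y i ^ 2 = algebraMap k[X] K (X + C (c i))
  gen : Subfield.closure (Set.range (algebraMap k[X] K) ∪ Set.range y) = ⊤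

/-- The field `F` is the extension `k' K` of `K` by the constants `k'`. -/
structure IsConstantExtension (k k' K F : Type) [Field k] [Field k'] [Algebra k k'] [Field K]
    [Algebra k[X] K] [Field F] [Algebra k'[X] F] [Algebra K F] : Prop where
  inj : Function.Injective (algebraMap k'[X] F)
  comp : ∀ p : k[X], algebraMap K F (algebraMap k[X] K p) =
    algebraMap k'[X] F (p.map (algebraMap k k'))
  gen : IntermediateField.adjoin K (Set.range ((algebraMap k'[X] F).comp C)) = ⊤

/-- The restriction of the cochain `c` to the completion of `F` at every maximal ideal of the Dedekind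
domain `B` with field of fractions `F` is a coboundary. -/
def IsSelmer {K F : Type} [Field K] [Field F] [Algebra K F] (B : Type) [CommRing B]
    [IsDedekindDomain B] [Algebra B F] [IsFractionRing B F] (f : K[X])
    (c : (Sep F ≃ₐ[F] Sep F) → Jac 2 f (Sep F)) : Prop :=
  ∀ v : HeightOneSpectrum B, LocTriv 2 f (Comp B F v) (Sep (Comp B F v)) c

/-- The class of `c`, with values in `T₂ J`, comes from `J(K)`: for every `n` there are `P` in `J(K)` and
`R` in `J(Sep F)` with `2 ^ n R = P` and `c n σ = σ R - R` for all `σ`. -/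
def ComesFromK {K F : Type} [Field K] [Field F] [Algebra K F] (f : K[X])
    (c : ℕ → (Sep F ≃ₐ[F] Sep F) → Jac 2 f (Sep F)) : Prop :=
  ∀ n, ∃ (P : Jac 2 f K) (R : Jac 2 f (Sep F)), 2 ^ n • R = jm 2 f (incl K K (Sep F)) P ∧
    IsCobOf 2 f (c n) R

/-- If `c` is a cocycle of `Gal(Sep F / F)` with values in `T₂ J` which is locally trivial at the maximal
ideals of `B`, and the class of `c` in `H ^ 1 (F, V₂ J)` is fixed by the Galois group of `K`, then the
class of `c` comes from `J(K)`. -/
def TateAtTwo {K F : Type} [Field K] [Field F] [Algebra K F] (B : Type) [CommRing B]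
    [IsDedekindDomain B] [Algebra B F] [IsFractionRing B F] (f : K[X]) : Prop :=
  ∀ c : ℕ → (Sep F ≃ₐ[F] Sep F) → Jac 2 f (Sep F), IsTC 2 2 f c →
    (∀ n, IsSelmer B f (c n)) → IsInv 2 2 f c → ComesFromK f c

/-- The Tate conjecture at `2` for the surface with generic fibre `w ^ 2 = f(x)` over `K`, for every
Galois extension `k'` of `k` (for example the separable closure of `k`), `F = k' K` and `B` the integral
closure of `k'[t]` in `F`: only the places of `F` over the affine `t`-line are used. -/
def TateConj (k : Type) {K : Type} [Field k] [Field K] [Algebra k[X] K] (f : K[X]) : Prop :=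
  ∀ (k' F B : Type) [Field k'] [Algebra k k'] [IsGalois k k'] [Field F] [Algebra k'[X] F]
    [Algebra K F] [CommRing B] [IsDedekindDomain B] [Algebra B F] [IsFractionRing B F]
    [Algebra k'[X] B] [IsScalarTower k'[X] B F] [IsIntegralClosure B k'[X] F],
    IsConstantExtension k k' K F → TateAtTwo (F := F) B f

/-- The ideal of the point `(a, b)` in the coordinate ring of the affine curve `w ^ 2 = f(x)`. -/
noncomputable def ptIdeal {K : Type} [Field K] (f : K[X]) (a b : K) : Ideal (CoordRing 2 f) :=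
  Ideal.span {ofPoly 2 f (X - C a), wfun 2 f - ofPoly 2 f (C b)}

/-- The element `P` of `J(K) = Pic(K[x, w] / (w ^ 2 - f(x)))` is the class of the ideal of the point
`(a, b)`. -/
def IsPoint {K : Type} [Field K] (f : K[X]) (a b : K) (P : Jac 2 f K) : Prop :=
  IsIdealClass (R := CoordRing 2 (f.map (algebraMap K K))) P (ptIdeal (f.map (algebraMap K K)) a b)

/-- The polynomial `x ^ n + ∑ v_i x ^ i`, where `i < n` and `v` is an integer vector, over `k`. -/
noncomputable def gOf (k : Type) [Field k] {n r m : ℕ} (v : Fin (n + (r + m)) → ℤ) : k[X] :=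
  X ^ n + ∑ i : Fin n, C ((v (Fin.castAdd (r + m) i) : ℤ) : k) * X ^ (i : ℕ)

/-- The element `x_i`, `i < r`, given by the vector `v`. -/
def xOf (k : Type) [Field k] {n r m : ℕ} (v : Fin (n + (r + m)) → ℤ) (i : Fin r) : k :=
  ((v (Fin.natAdd n (Fin.castAdd m i)) : ℤ) : k)

/-- The elements `g(x_i)`, `i < r`, and `c_j`, `j < m`, given by the vector `v`. -/
noncomputable def cOf (k : Type) [Field k] {n r m : ℕ} (v : Fin (n + (r + m)) → ℤ) :
    Fin r ⊕ Fin m → k :=
  Sum.elim (fun i => (gOf k v).eval (xOf k v i))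
    fun j => ((v (Fin.natAdd n (Fin.natAdd r j)) : ℤ) : k)

/-- The conclusion for `K = k(t)(y₁, …, y_r, z₁, …, z_m)`, `y_i ^ 2 = t + g(x_i)`, `z_j ^ 2 = t + c_j`,
where the polynomial `g`, the `x_i` and the `c_j` are given by the integer vector `v`. -/
def Holds (k : Type) [Field k] {n r m : ℕ} (v : Fin (n + (r + m)) → ℤ) : Prop :=
  ∀ (K : Type) [Field K] [Algebra k[X] K] (y : Fin r ⊕ Fin m → K), IsFunctionField (cOf k v) K y →
    TateConj k (fPoly (gOf k v) K) ∧
      ∃ P : Fin r → Jac 2 (fPoly (gOf k v) K) K, IsBasisAt 2 P ∧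
        ∀ i, IsPoint (fPoly (gOf k v) K) (const k K (xOf k v i)) (y (Sum.inl i)) (P i)

/-- Number fields: the set of the exceptions has density zero. -/
def NumberFields : Prop :=
  ∀ (k : Type) [Field k] [NumberField k] (n r m : ℕ), 5 ≤ n → Odd n →
    Tendsto (fun H : ℕ => (({v : Fin (n + (r + m)) → ℤ | (∀ i, |v i| ≤ (H : ℤ)) ∧
      ¬ Holds k v}.ncard : ℕ) : ℝ) / (2 * (H : ℝ) + 1) ^ (n + (r + m))) atTop (𝓝 0)

theorem tate_of {K F : Type} [Field K] [Field F] [Algebra K F] {B : Type} [CommRing B]
    [IsDedekindDomain B] [Algebra B F] [IsFractionRing B F] {f : K[X]}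
    (h : Pool.Agent.Q45.GP.TateOver (F := F) 2 2 B f) : TateAtTwo (F := F) B f := by
  intro c hc hl hi n
  exact h c ⟨fun n => ⟨(hc.coc n).lc, (hc.coc n).mul⟩, hc.zero, hc.step⟩ hl
    (fun τ => by
      obtain ⟨m, Q, hQ, hm⟩ := hi τ
      exact ⟨m, Q, ⟨hQ.zero, hQ.step⟩, hm⟩) n

theorem gOf_eq (k : Type) [Field k] {n r m : ℕ} (v : Fin (n + (r + m)) → ℤ) :
    gOf k v = Pool.Agent.Q45.TD.gK (Pool.Agent.Q45.TD.vk k v) := rfl

theorem xOf_eq (k : Type) [Field k] {n r m : ℕ} (v : Fin (n + (r + m)) → ℤ) (i : Fin r) :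
    xOf k v i = Pool.Agent.Q45.TD.vk k v (Sum.inr (Sum.inl i)) := rfl

theorem cOf_eq (k : Type) [Field k] {n r m : ℕ} (v : Fin (n + (r + m)) → ℤ) :
    cOf k v = Pool.Agent.Q45.TD.cc (Pool.Agent.Q45.TD.vk k v) := by
  funext i
  rcases i with i | j
  · rw [Pool.Agent.Q45.TD.cc_inl]
    rfl
  · rw [Pool.Agent.Q45.TD.cc_inr]
    rfl

/-- The set of the exceptions has density zero. -/
theorem result : NumberFields := by
  intro k _ _ n r m hn hodd
  refine Q45.Tate.Zd.mono (S := {v | ¬ Holds k v}) (Pool.Agent.Q45.TD.exc_zd (n := n) (r := r)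
    (m := m) (by omega) k) ?_
  intro v hv
  by_contra hex
  apply hv
  intro K _ _ y hK
  have hD := Pool.Agent.Q45.TD.dens_data (k := k) (by omega) hodd hex
  rw [cOf_eq] at hK
  have hC : Pool.Agent.Q45.TW.IsCov k (Pool.Agent.Q45.TD.cc (Pool.Agent.Q45.TD.vk k v)) K y :=
    ⟨hK.inj, hK.sq, hK.gen⟩
  refine ⟨?_, _, hD.basis hC, fun i => ?_⟩
  · intro k' F B _ _ _ _ _ _ _ _ _ _ _ _ _ hF
    exact tate_of (hD.tate hC (k' := k') (A' := B) ⟨hF.inj, hF.comp, hF.gen⟩)
  · have h1 := hD.cls hC (Sum.inl i)
    rw [Polynomial.map_sub, map_X, map_C] at h1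
    exact Pool.Agent.Q45.TW.cl_class h1

end Pool.Agent.Results.MP_97f789_ag.PlaneCoverings
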