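import Mathlib
import Pool.Agent.TH115.GD.Defs
import Pool.Agent.TH115.ID.Defs
import Pool.Agent.Q45.Tate.Gen

/-!
# The Tate conjecture at 2 for a universal family of elliptic surfaces with four sections

Let `k` be a field of characteristic different from 2, `k'` a separable closure of `k`, `K = k(t)`,
`F = k'(t)`. For polynomials `T, x, y, z` over `k` let

`E : Y² = X (X² + a X + b)`,

`a = -4 ((1 + x² + y² + z²) T + 8 (x² y² + y² z² + z² x²) + 8 (x y z)²)`,

`b = 4 q₁ q₂ q₃`, `q₁ = T + 4 x² + 4 y² z²`, `q₂ = T + 4 y² + 4 z² x²`, `q₃ = T + 4 z² + 4 x² y²`.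

Then `a² - 4 b = -16 (T - 8 x y z) (T + 8 x y z) r` with
`r = T - (1 - x² - y² - z²)² + 4 (x² y² + y² z² + z² x²)`, and there are four explicit points
over `K`: two on `E` with `X = 4 (y - z)² q₁`, `X = 4 (z - x)² q₂` and the images of two points of
the isogenous curve `Y² = X (X² - 2 a X + a² - 4 b)` with `X = -4 (1 + x + y + z)² (T - 8 x y z)`,
`X = -16 r`. There are four free polynomials in the family. (For constants `x, y, z` these are the
pullbacks by `T` of the rational elliptic surfaces with parameters `x, y, z`; the conditions below say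
that `(x, y, z)` is not on the hyperplanes of the reflection arrangement of type F₄. So these surfaces
have any geometric genus, and there is a unique point of order two over `K`.)

Theorem. (1) If the six polynomials `q₁, q₂, q₃` and `T ± 8 x y z, r` are irreducible and
separable, the first three and the last three are pairwise not associated, and each of `b`,
`a² - 4 b` has odd degree (or is not a constant times a norm from a quadratic extension of `k`), then
the Tate conjecture for divisors at the prime 2 holds for the elliptic surface with generic fibre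
`E`, and `E(K)` has four independent points.
(2) If `k` is a number field, these conclusions hold for 100 percent of the quadruples of
polynomials with integer coefficients, `T` monic of odd degree `n`, `x, y, z` of degree `< m`, for
`4 (m - 1) < n`, ordered by the largest coefficient.
(3) They hold over `k = κ(s)` for every field `κ` of characteristic different from 2 (of any
characteristic different from 2, for example a finite field or a finitely generated field), for
`T = g(t) - s` and all `g, x, y, z` in `κ[t]` such that `n = deg g` is odd and prime to the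
characteristic, `4 deg x, 4 deg y, 4 deg z < n`, and
`x y z (x² - y²) (y² - z²) (z² - x²) (1 - x²) (1 - y²) (1 - z²) ∏ (1 ± x ± y ± z) ≠ 0`.
-/

namespace Pool.Agent.Results.MP_97f789_ag.UniversalRankFour

open Polynomial Filter Topology Pool.Agent.TH115.GD
open scoped Classical

section defs

variable {R : Type} [CommRing R]

/-- `q(T; x; y, z) = T + 4 x² + 4 y² z²`. -/
def q (T x y z : R) : R := T + 4 * x ^ 2 + 4 * (y ^ 2 * z ^ 2)

/-- `r = T - (1 - x² - y² - z²)² + 4 (x² y² + y² z² + z² x²)`. -/
def r (T x y z : R) : R :=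
  T - (1 - (x ^ 2 + y ^ 2 + z ^ 2)) ^ 2 + 4 * (x ^ 2 * y ^ 2 + y ^ 2 * z ^ 2 + z ^ 2 * x ^ 2)

/-- The coefficient `a`. -/
def ca (T x y z : R) : R :=
  -4 * ((1 + (x ^ 2 + y ^ 2 + z ^ 2)) * T + 8 * (x ^ 2 * y ^ 2 + y ^ 2 * z ^ 2 + z ^ 2 * x ^ 2) +
    8 * (x * y * z) ^ 2)

/-- The coefficient `b = 4 q₁ q₂ q₃`. -/
def cb (T x y z : R) : R := 4 * (q T x y z * q T y z x * q T z x y)

/-- The three factors of `b`. -/
def facb (T x y z : R) : Fin 3 → R := ![q T x y z, q T y z x, q T z x y]

/-- The three factors of `a² - 4 b`. -/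
def facd (T x y z : R) : Fin 3 → R := ![T - 8 * (x * y * z), T + 8 * (x * y * z), r T x y z]

/-- The product of the linear forms of the arrangement. -/
def arr (x y z : R) : R :=
  (x * y * z) * (((x ^ 2 - y ^ 2) * (y ^ 2 - z ^ 2) * (z ^ 2 - x ^ 2)) *
    ((1 - x ^ 2) * (1 - y ^ 2) * (1 - z ^ 2))) *
  (((1 + (x + y + z)) * ((1 + (x - y - z)) * ((1 + (-x + y - z)) * (1 + (-x - y + z))))) *
    ((1 - (x + y + z)) * ((1 - (x - y - z)) * ((1 - (-x + y - z)) * (1 - (-x - y + z))))))

end defs

/-- The conditions in part (1). -/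
structure Admissible {k : Type} [Field k] (T x y z : k[X]) : Prop where
  irrb : ∀ i, Irreducible (facb T x y z i)
  sepb : ∀ i, (facb T x y z i).Separable
  nassb : ∀ i j, i ≠ j → ¬ facb T x y z i ∣ facb T x y z j
  irrd : ∀ i, Irreducible (facd T x y z i)
  sepd : ∀ i, (facd T x y z i).Separable
  nassd : ∀ i j, i ≠ j → ¬ facd T x y z i ∣ facd T x y z j
  normb : Odd (cb T x y z).natDegree ∨ NotNorm (cb T x y z)
  normd : Odd (ca T x y z ^ 2 - 4 * cb T x y z).natDegree ∨
    NotNorm (ca T x y z ^ 2 - 4 * cb T x y z)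

/-- The curve `Y² = X (X² + a X + b)` over `K = k(t)`. -/
noncomputable def curve {k : Type} [Field k] (K : Type) [Field K] [Algebra k[X] K]
    (T x y z : k[X]) : WeierstrassCurve K :=
  crvT (algebraMap k[X] K (ca T x y z)) (algebraMap k[X] K (cb T x y z))

/-- The Tate conjecture at the prime 2 holds for the elliptic surface of `(T, x, y, z)`, and its
generic fibre has four independent points over `K = k(t)`. -/
def Holds {k : Type} [Field k] (T x y z : k[X]) : Prop :=
  ∀ (k' K F : Type) [Field k'] [Algebra k k'] [Field K] [Algebra k[X] K]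
    [Field F] [Algebra k'[X] F] [IsFractionRing k'[X] F] [Algebra K F], IsTower k k' K F →
      TateAtTwo (F := F) k' (curve K T x y z) ∧
        ∃ P : Fin 4 → Pt (curve K T x y z) K, LinearIndependent ℤ P

section coefficients

variable (k : Type) [Field k] {n m : ℕ} (v : Fin (n + (m + (m + m))) → ℤ)

/-- The monic polynomial `T` of degree `n`: its coefficients are the first `n` entries of `v`. -/
noncomputable def polT : k[X] :=
  X ^ n + ∑ i : Fin n, C ((v (Fin.castAdd (m + (m + m)) i) : ℤ) : k) * X ^ (i : ℕ)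

/-- The polynomial `x` of degree `< m`, from the next `m` entries of `v`. -/
noncomputable def polx : k[X] :=
  ∑ i : Fin m, C ((v (Fin.natAdd n (Fin.castAdd (m + m) i)) : ℤ) : k) * X ^ (i : ℕ)

/-- The polynomial `y` of degree `< m`. -/
noncomputable def poly : k[X] :=
  ∑ i : Fin m, C ((v (Fin.natAdd n (Fin.natAdd m (Fin.castAdd m i))) : ℤ) : k) * X ^ (i : ℕ)

/-- The polynomial `z` of degree `< m`. -/
noncomputable def polz : k[X] :=
  ∑ i : Fin m, C ((v (Fin.natAdd n (Fin.natAdd m (Fin.natAdd m i))) : ℤ) : k) * X ^ (i : ℕ)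

end coefficients

theorem holds_of {k : Type} [Field k] (h2 : (2 : k) ≠ 0) {T x y z : k[X]}
    (G : Q45.Tate.Good T x y z) : Holds T x y z := by
  intro k' K F _ _ _ _ _ _ _ _ hT
  have := hT.fracK
  exact ⟨Q45.Tate.tate hT h2 G, G.indep h2⟩

theorem result :
    (∀ (k : Type) [Field k], (2 : k) ≠ 0 → ∀ T x y z : k[X], Admissible T x y z →
      Holds T x y z) ∧
    (∀ (k : Type) [Field k] [NumberField k] (n m : ℕ), Odd n → 0 < m → 4 * (m - 1) < n →
      Tendsto (fun H : ℕ => (({v : Fin (n + (m + (m + m))) → ℤ | (∀ i, |v i| ≤ (H : ℤ)) ∧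
        ¬ Holds (polT k v) (polx k v) (poly k v) (polz k v)}.ncard : ℕ) : ℝ) /
          (2 * (H : ℝ) + 1) ^ (n + (m + (m + m)))) atTop (𝓝 0)) ∧
    (∀ (κ k : Type) [Field κ] [Field k] [Algebra κ[X] k] [IsFractionRing κ[X] k], (2 : κ) ≠ 0 →
      ∀ g x y z : κ[X], Odd g.natDegree → (g.natDegree : κ) ≠ 0 → 4 * x.natDegree < g.natDegree →
        4 * y.natDegree < g.natDegree → 4 * z.natDegree < g.natDegree → arr x y z ≠ 0 →
          ∀ f : κ →+* k, f = (algebraMap κ[X] k).comp C →
            Holds (g.map f - C (algebraMap κ[X] k X)) (x.map f) (y.map f) (z.map f)) := by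
  refine ⟨?_, ?_, ?_⟩
  · intro k _ h2 T x y z A
    exact holds_of h2 ⟨A.irrb, A.sepb, A.nassb, A.irrd, A.sepd, A.nassd, A.normb, A.normd⟩
  · intro k _ _ n m hn hm hnm
    refine (Q45.Tate.exc_zd (n := n) hn.pos hm (by omega) k).mono ?_
    intro v hv
    by_contra hcon
    exact hv (holds_of two_ne_zero (Q45.Tate.good_of hm (by omega) hn hcon))
  · intro κ k _ _ _ _ h2 g x y z hodd hp hx hy hz nd f hf
    subst hf
    refine holds_of ?_ (Q45.Tate.good_ff h2 hx hy hz hodd hp nd)
    intro h
    apply h2
    apply (IsFractionRing.injective κ[X] k).comp C_injective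
    show Q45.Tate.em κ k 2 = Q45.Tate.em κ k 0
    rw [map_zero, map_ofNat, h]

end Pool.Agent.Results.MP_97f789_ag.UniversalRankFour
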